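import Mathlib

/-! Multilinear polynomials over the field with two elements, as lists of bit masks. -/

namespace Q15LP

/-- A polynomial: a list of monomials, a monomial being the bit mask of its variables. -/
abbrev P := List Nat

open Classical in
/-- value of a monomial (variables below 64) -/
noncomputable def evM (ρ : Nat → Bool) (m : Nat) : Bool :=
  if (∀ i < 64, m.testBit i = true → ρ i = true) then true else false

lemma evM_iff (ρ : Nat → Bool) (m : Nat) :
    evM ρ m = true ↔ ∀ i < 64, m.testBit i = true → ρ i = true := by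
  classical
  unfold evM
  split_ifs with h
  · exact ⟨fun _ => h, fun _ => rfl⟩
  · exact ⟨fun h1 => absurd h1 (by decide), fun h1 => absurd h1 h⟩

/-- value of a polynomial -/
noncomputable def ev (ρ : Nat → Bool) : P → Bool
  | [] => false
  | m :: p => xor (evM ρ m) (ev ρ p)

/-- toggling insertion of a monomial -/
def ins (m : Nat) : P → P
  | [] => [m]
  | b :: q => bif Nat.blt m b then m :: b :: q else bif Nat.beq m b then q else b :: ins m q

/-- merge with cancellation; the first argument is fuel -/
def mrg : Nat → P → P → P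
  | 0, p, q => p ++ q
  | _ + 1, [], q => q
  | _ + 1, a :: p, [] => a :: p
  | n + 1, a :: p, b :: q =>
    bif Nat.blt a b then a :: mrg n p (b :: q)
    else bif Nat.beq a b then mrg n p q else b :: mrg n (a :: p) q

/-- sum -/
def padd (p q : P) : P := mrg 100000 p q

/-- product of a monomial and a polynomial, sorted -/
def mmul (m : Nat) : P → P
  | [] => []
  | b :: q => ins (Nat.lor m b) (mmul m q)

/-- product -/
def pmul : P → P → P
  | [], _ => []
  | a :: p, q => padd (mmul a q) (pmul p q)

lemma ev_append (ρ : Nat → Bool) (p q : P) : ev ρ (p ++ q) = xor (ev ρ p) (ev ρ q) := by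
  induction p with
  | nil => simp [ev]
  | cons a p ih => simp [ev, ih]

lemma ev_ins (ρ : Nat → Bool) (m : Nat) (p : P) : ev ρ (ins m p) = xor (evM ρ m) (ev ρ p) := by
  induction p with
  | nil => rfl
  | cons b q ih =>
    rw [ins]
    cases h : Nat.blt m b with
    | true => rfl
    | false =>
      cases h2 : Nat.beq m b with
      | true =>
        have : m = b := Nat.eq_of_beq_eq_true h2
        subst this
        simp [ev]
      | false =>
        simp only [cond_false, ev, ih]
        cases evM ρ m <;> cases evM ρ b <;> cases ev ρ q <;> rfl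

lemma ev_mrg (ρ : Nat → Bool) (n : Nat) (p q : P) :
    ev ρ (mrg n p q) = xor (ev ρ p) (ev ρ q) := by
  induction n generalizing p q with
  | zero => exact ev_append ρ p q
  | succ n ih =>
    cases p with
    | nil => simp [mrg, ev]
    | cons a p =>
      cases q with
      | nil => simp [mrg, ev]
      | cons b q =>
        rw [mrg]
        cases h : Nat.blt a b with
        | true =>
          simp only [cond_true, ev, ih]
          cases evM ρ a <;> cases evM ρ b <;> cases ev ρ q <;> cases ev ρ p <;> rfl
        | false =>
          cases h2 : Nat.beq a b with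
          | true =>
            have : a = b := Nat.eq_of_beq_eq_true h2
            subst this
            simp only [cond_false, cond_true, ev, ih]
            cases evM ρ a <;> cases ev ρ q <;> cases ev ρ p <;> rfl
          | false =>
            simp only [cond_false, ev, ih]
            cases evM ρ a <;> cases evM ρ b <;> cases ev ρ q <;> cases ev ρ p <;> rfl

lemma ev_padd (ρ : Nat → Bool) (p q : P) : ev ρ (padd p q) = xor (ev ρ p) (ev ρ q) :=
  ev_mrg ρ _ p q

lemma evM_lor (ρ : Nat → Bool) (m b : Nat) : evM ρ (Nat.lor m b) = (evM ρ m && evM ρ b) := by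
  have h : ∀ i, (Nat.lor m b).testBit i = (m.testBit i || b.testBit i) := fun i =>
    Nat.testBit_or m b i
  rw [Bool.eq_iff_iff, Bool.and_eq_true_iff, evM_iff, evM_iff, evM_iff]
  constructor
  · intro h1
    exact ⟨fun i hi hm => h1 i hi (by rw [h, hm]; rfl),
      fun i hi hm => h1 i hi (by rw [h, hm]; simp)⟩
  · rintro ⟨h1, h2⟩ i hi hm
    rw [h] at hm
    rcases Bool.or_eq_true_iff.mp hm with hm | hm
    · exact h1 i hi hm
    · exact h2 i hi hm

lemma ev_mmul (ρ : Nat → Bool) (m : Nat) (p : P) : ev ρ (mmul m p) = (evM ρ m && ev ρ p) := by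
  induction p with
  | nil => simp [mmul, ev]
  | cons b q ih =>
    rw [mmul, ev_ins, ih, evM_lor, ev]
    cases evM ρ m <;> cases evM ρ b <;> cases ev ρ q <;> rfl

lemma ev_pmul (ρ : Nat → Bool) (p q : P) : ev ρ (pmul p q) = (ev ρ p && ev ρ q) := by
  induction p with
  | nil => simp [pmul, ev]
  | cons a p ih =>
    rw [pmul, ev_padd, ev_mmul, ih, ev]
    cases evM ρ a <;> cases ev ρ p <;> cases ev ρ q <;> rfl

lemma ev_var (ρ : Nat → Bool) (k : Nat) (hk : k < 64) : ev ρ [2 ^ k] = ρ k := by
  simp only [ev, Bool.xor_false]
  rw [Bool.eq_iff_iff, evM_iff]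
  constructor
  · intro h
    exact h k hk (by simp)
  · intro h i hi hm
    have := Nat.testBit_two_pow (n := k) (m := i)
    rw [hm] at this
    have h2 : k = i := by simpa using this.symm
    rw [← h2, h]

/-- vectors with seven coordinates -/
@[ext] structure V (R : Type) where
  x0 : R
  x1 : R
  x2 : R
  x3 : R
  x4 : R
  x5 : R
  x6 : R
deriving DecidableEq

/-- evaluate all coordinates -/
noncomputable def evV (ρ : Nat → Bool) (p : V P) : V Bool :=
  ⟨ev ρ p.x0, ev ρ p.x1, ev ρ p.x2, ev ρ p.x3, ev ρ p.x4, ev ρ p.x5, ev ρ p.x6⟩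

end Q15LP
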