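import Mathlib
import Pool.Agent.Q15.LP.A2

/-! Kernel checks of the polynomial identities. -/

namespace Q15LP

set_option maxRecDepth 100000

lemma chk1 : gm padd pmul pC pB = gm padd pmul pA pD := by decide +kernel
lemma chk2 : gm padd pmul pP1 pB = gm padd pmul pU pV := by decide +kernel
lemma chk3 : gm padd pmul pC pP3 = gm padd pmul pP1 pD := by decide +kernel
lemma chk4 : gm padd pmul pC pQ2 = gm padd pmul pU pD := by decide +kernel
lemma chk5 : gm padd pmul pQ4 pB = gm padd pmul pA pQ2 := by decide +kernel
lemma chk6 : gm padd pmul pR2 pB = gm padd pmul pA pV := by decide +kernel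
lemma chk7 : gm padd pmul pC pR4 = gm padd pmul pR2 pD := by decide +kernel
lemma chk8 : gm padd pmul pQ4 pR4 = gm padd pmul pA pP3 := by decide +kernel

end Q15LP
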