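import Mathlib

/-! Loops, isotopes, the property (T) and the antiautomorphic inverse property. -/

namespace Q15LP

/-- `(Q, mul)` is a loop with identity element `e`. -/
def IsLoop {Q : Type} (mul : Q → Q → Q) (e : Q) : Prop :=
  (∀ x, mul e x = x ∧ mul x e = x) ∧ (∀ a b, ∃! x, mul a x = b) ∧ (∀ a b, ∃! y, mul y a = b)

/-- Property (T): for every `x` the map `T : y ↦ x \ (y x)` is an automorphism. -/
def PropT {Q : Type} (mul : Q → Q → Q) : Prop :=
  ∀ x, ∃ T : Q ≃ Q, (∀ y, mul x (T y) = mul y x) ∧ ∀ y z, T (mul y z) = mul (T y) (T z)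

/-- `(G, m)` is an isotope of `(Q, mul)`. -/
def IsIsotope {G Q : Type} (m : G → G → G) (mul : Q → Q → Q) : Prop :=
  ∃ α β γ : G ≃ Q, ∀ u v, γ (m u v) = mul (α u) (β v)

/-- Property (T) holds universally: it holds in every loop isotope. -/
def UniversalT {Q : Type} (mul : Q → Q → Q) : Prop :=
  ∀ (G : Type) (m : G → G → G) (e : G), IsLoop m e → IsIsotope m mul → PropT m

/-- Antiautomorphic inverse property: two-sided inverses exist and
`(x y)⁻¹ = y⁻¹ x⁻¹`. -/
def AAIP {Q : Type} (mul : Q → Q → Q) (e : Q) : Prop :=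
  ∃ inv : Q → Q, (∀ x, mul x (inv x) = e ∧ mul (inv x) x = e) ∧
    ∀ x y, inv (mul x y) = mul (inv y) (inv x)

/-- The identity behind the universal property (T). -/
def Core {Q : Type} (mul : Q → Q → Q) : Prop :=
  ∀ a b c d u v p1 p3 q2 q4 r2 r4 : Q, mul c b = mul a d → mul p1 b = mul u v →
    mul c p3 = mul p1 d → mul c q2 = mul u d → mul q4 b = mul a q2 → mul r2 b = mul a v →
    mul c r4 = mul r2 d → mul q4 r4 = mul a p3

theorem universalT_of_core {Q : Type} {mul : Q → Q → Q} (hc : Core mul) : UniversalT mul := by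
  rintro G m e ⟨he, hl, hr⟩ ⟨α, β, γ, hγ⟩ x
  -- the map `T`
  have hT : ∀ y, ∃ t, m x t = m y x := fun y => (hl x (m y x)).exists
  choose T hT using hT
  have hinj : Function.Injective T := by
    intro y z hyz
    have h1 := hT y
    rw [hyz, hT z] at h1
    exact (hr x (m y x)).unique rfl h1
  have hsurj : Function.Surjective T := by
    intro t
    obtain ⟨y, hy, -⟩ := hr x (m x t)
    exact ⟨y, (hl x (m x t)).unique ((hT y).trans hy) rfl⟩
  refine ⟨Equiv.ofBijective T ⟨hinj, hsurj⟩, hT, ?_⟩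
  intro y z
  change T (m y z) = m (T y) (T z)
  -- translate into `Q`
  have hg1 : ∀ s, γ s = mul (α e) (β s) := fun s => by rw [← hγ, (he s).1]
  have hg2 : ∀ s, γ s = mul (α s) (β e) := fun s => by rw [← hγ, (he s).2]
  have hTT : ∀ y, mul (α x) (β (T y)) = mul (α y) (β x) := fun y => by
    rw [← hγ, ← hγ, hT]
  apply γ.injective
  have key := hc (α e) (β e) (α x) (β x) (α y) (β z) (α (m y z)) (β (T (m y z))) (β (T y))
    (α (T y)) (α z) (β (T z)) (by rw [← hg1, ← hg2]) (by rw [← hg2, hγ]) (hTT _) (hTT _)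
    (by rw [← hg1, ← hg2]) (by rw [← hg1, ← hg2]) (hTT _)
  rw [hγ, key, ← hg1]

end Q15LP
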