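import Mathlib
import Pool.Agent.Q15.LP.A3
import Pool.Agent.Q15.LP.B1

/-! The loop of order 128. -/

namespace Q15LP

/-- The loop: the set of all vectors of seven bits with the polynomial multiplication `gm`. -/
def mul7 (x y : V Bool) : V Bool := gm xor and x y

/-- the zero vector -/
def e7 : V Bool := ⟨false, false, false, false, false, false, false⟩

lemma evV_gm (ρ : Nat → Bool) (x y : V P) :
    evV ρ (gm padd pmul x y) = mul7 (evV ρ x) (evV ρ y) := by
  simp only [evV, mul7, gm, f2, f3, f4, f5, f6, ev_padd, ev_pmul]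

lemma xc {a p q f : Bool} (h : xor (xor a p) f = xor (xor a q) f) : p = q := by
  cases a <;> cases p <;> cases q <;> cases f <;> simp_all

lemma xc' {a p q f : Bool} (h : xor (xor p a) f = xor (xor q a) f) : p = q := by
  cases a <;> cases p <;> cases q <;> cases f <;> simp_all

lemma mul7_left_inj {a x y : V Bool} (h : mul7 a x = mul7 a y) : x = y := by
  obtain ⟨x0, x1, x2, x3, x4, x5, x6⟩ := x
  obtain ⟨y0, y1, y2, y3, y4, y5, y6⟩ := y
  simp only [mul7, gm, V.mk.injEq] at h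
  obtain ⟨h0, h1, h2, h3, h4, h5, h6⟩ := h
  obtain rfl : x0 = y0 := by cases a.x0 <;> simp_all
  obtain rfl : x1 = y1 := by cases a.x1 <;> simp_all
  simp only [f2] at h2
  obtain rfl := xc h2
  simp only [f3] at h3
  obtain rfl := xc h3
  simp only [f4] at h4
  obtain rfl := xc h4
  simp only [f5] at h5
  obtain rfl := xc h5
  simp only [f6] at h6
  obtain rfl := xc h6
  rfl

lemma mul7_right_inj {a x y : V Bool} (h : mul7 x a = mul7 y a) : x = y := by
  obtain ⟨x0, x1, x2, x3, x4, x5, x6⟩ := x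
  obtain ⟨y0, y1, y2, y3, y4, y5, y6⟩ := y
  simp only [mul7, gm, V.mk.injEq] at h
  obtain ⟨h0, h1, h2, h3, h4, h5, h6⟩ := h
  obtain rfl : x0 = y0 := by cases a.x0 <;> simp_all
  obtain rfl : x1 = y1 := by cases a.x1 <;> simp_all
  simp only [f2] at h2
  obtain rfl := xc' h2
  simp only [f3] at h3
  obtain rfl := xc' h3
  simp only [f4] at h4
  obtain rfl := xc' h4
  simp only [f5] at h5
  obtain rfl := xc' h5
  simp only [f6] at h6
  obtain rfl := xc' h6
  rfl

/-- the vectors as a product -/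
def vEquiv : V Bool ≃ Bool × Bool × Bool × Bool × Bool × Bool × Bool where
  toFun v := (v.x0, v.x1, v.x2, v.x3, v.x4, v.x5, v.x6)
  invFun p := ⟨p.1, p.2.1, p.2.2.1, p.2.2.2.1, p.2.2.2.2.1, p.2.2.2.2.2.1, p.2.2.2.2.2.2⟩
  left_inv _ := rfl
  right_inv _ := rfl

instance : Finite (V Bool) := Finite.of_equiv _ vEquiv.symm

lemma card_V : Nat.card (V Bool) = 128 := by
  rw [Nat.card_congr vEquiv]
  simp [Nat.card_prod]

lemma mul7_loop : IsLoop mul7 e7 := by
  refine ⟨?_, ?_, ?_⟩
  · intro x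
    constructor
    · simp [mul7, gm, e7, f2, f3, f4, f5, f6]
    · simp [mul7, gm, e7, f2, f3, f4, f5, f6]
  · intro a b
    have h : Function.Bijective (mul7 a) :=
      Finite.injective_iff_bijective.mp fun _ _ h => mul7_left_inj h
    exact h.existsUnique b
  · intro a b
    have h : Function.Bijective (fun y => mul7 y a) :=
      Finite.injective_iff_bijective.mp fun _ _ h => mul7_right_inj h
    exact h.existsUnique b

/-- the assignment coding five vectors -/
def asg (a b c u v : V Bool) (k : Nat) : Bool :=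
  [a.x0, a.x1, a.x2, a.x3, a.x4, a.x5, a.x6,
   b.x0, b.x1, b.x2, b.x3, b.x4, b.x5, b.x6,
   c.x0, c.x1, c.x2, c.x3, c.x4, c.x5, c.x6,
   u.x0, u.x1, u.x2, u.x3, u.x4, u.x5, u.x6,
   v.x0, v.x1, v.x2, v.x3, v.x4, v.x5, v.x6].getD k false

/-- the five vectors of variables -/
lemma ev_vec (ρ : Nat → Bool) (k : Nat) (hk : k + 6 < 64) :
    evV ρ ⟨[2 ^ k], [2 ^ (k + 1)], [2 ^ (k + 2)], [2 ^ (k + 3)], [2 ^ (k + 4)], [2 ^ (k + 5)],
      [2 ^ (k + 6)]⟩ =
      ⟨ρ k, ρ (k + 1), ρ (k + 2), ρ (k + 3), ρ (k + 4), ρ (k + 5), ρ (k + 6)⟩ := by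
  simp only [evV]
  rw [ev_var _ _ (by omega), ev_var _ _ (by omega), ev_var _ _ (by omega),
    ev_var _ _ (by omega), ev_var _ _ (by omega), ev_var _ _ (by omega), ev_var _ _ (by omega)]

theorem core7 : Core mul7 := by
  intro a b c d u v p1 p3 q2 q4 r2 r4 h1 h2 h3 h4 h5 h6 h7
  have hA : evV (asg a b c u v) pA = a := ev_vec (asg a b c u v) 0 (by norm_num)
  have hB : evV (asg a b c u v) pB = b := ev_vec (asg a b c u v) 7 (by norm_num)
  have hC : evV (asg a b c u v) pC = c := ev_vec (asg a b c u v) 14 (by norm_num)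
  have hU : evV (asg a b c u v) pU = u := ev_vec (asg a b c u v) 21 (by norm_num)
  have hV : evV (asg a b c u v) pV = v := ev_vec (asg a b c u v) 28 (by norm_num)
  generalize asg a b c u v = ρ at hA hB hC hU hV
  have k1 := congrArg (evV ρ) chk1
  have k2 := congrArg (evV ρ) chk2
  have k3 := congrArg (evV ρ) chk3
  have k4 := congrArg (evV ρ) chk4
  have k5 := congrArg (evV ρ) chk5
  have k6 := congrArg (evV ρ) chk6
  have k7 := congrArg (evV ρ) chk7
  have k8 := congrArg (evV ρ) chk8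
  simp only [evV_gm, hA, hB, hC, hU, hV] at k1 k2 k3 k4 k5 k6 k7 k8
  have e1 : evV ρ pD = d := mul7_left_inj (k1.symm.trans h1)
  rw [e1] at k3 k4 k7
  have e2 : evV ρ pP1 = p1 := mul7_right_inj (k2.trans h2.symm)
  rw [e2] at k3
  have e3 : evV ρ pP3 = p3 := mul7_left_inj (k3.trans h3.symm)
  have e4 : evV ρ pQ2 = q2 := mul7_left_inj (k4.trans h4.symm)
  rw [e4] at k5
  have e5 : evV ρ pQ4 = q4 := mul7_right_inj (k5.trans h5.symm)
  have e6 : evV ρ pR2 = r2 := mul7_right_inj (k6.trans h6.symm)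
  rw [e6] at k7
  have e7 : evV ρ pR4 = r4 := mul7_left_inj (k7.trans h7.symm)
  rw [e5, e7, e3] at k8
  exact k8

end Q15LP
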