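import Mathlib
import Pool.Agent.Q15.LP.A4

/-! The loop of order 128 has no antiautomorphic inverse property. -/

namespace Q15LP

theorem not_aaip : ¬ AAIP mul7 e7 := by
  rintro ⟨inv, h1, h2⟩
  have hx : inv ⟨true, false, false, false, false, false, false⟩ =
      ⟨true, false, true, false, false, false, false⟩ :=
    mul7_left_inj (((h1 _).1).trans (by decide))
  have hy : inv ⟨false, true, false, false, false, false, false⟩ =
      ⟨false, true, false, false, false, false, false⟩ :=
    mul7_left_inj (((h1 _).1).trans (by decide))
  have hxy : inv ⟨true, true, false, false, false, true, false⟩ =
      ⟨true, true, true, true, false, true, false⟩ :=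
    mul7_left_inj (((h1 _).1).trans (by decide))
  have h := h2 ⟨true, false, false, false, false, false, false⟩
    ⟨false, true, false, false, false, false, false⟩
  rw [hx, hy, show mul7 ⟨true, false, false, false, false, false, false⟩
    ⟨false, true, false, false, false, false, false⟩ =
    ⟨true, true, false, false, false, true, false⟩ by decide, hxy] at h
  exact absurd h (by decide)

end Q15LP
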